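import Pool.Agent.D0H69.Q4.Lso

/-!
Project MQ (helper43), modules 7 and 8: the `L`-series of `y² = x³ + D x` over `ℚ(i)` when every primary prime
divides `D` with an exponent prime to four, and the character `c4` with the exponents `1` and `3`.
-/

set_option autoImplicit false
set_option linter.unusedSectionVars false

open NumberField IsDedekindDomain

namespace Pool.Agent.D0H24.MQ

open scoped Classical
open WeierstrassCurve
open Pool.Agent.D0H69.Q4
open Pool.Agent.Y699 hiding q4 wi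
open Pool.Agent.Y715.Z
open Pool.Agent.W189.NF (aV eV)
open Pool.Agent.H921R2.TatePole (nm two_le_nm)
open H385 (ZI RQ im1 nrm)
open Pool.Agent.W164.RC (tc_mul tc_star Ip Ip_spec)
open Pool.Agent.H304R3.HK (tc HC LH)
open Pool.Agent.H304R2.EC.A1 (prim prim_mul)
open Pool.Agent.Y696 (HBd LSeries_hasProd')

section main

variable {K : Type} [Field K] [NumberField K] (e : ZI ≃+* 𝓞 K)

/-- additive reduction at an odd prime dividing `D` exactly `k` times, `k` prime to four -/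
theorem bad_pow {D c : ZI} (v : HeightOneSpectrum (𝓞 K)) (hPP : PP (pg e v)) {k : ℕ} (hk : ¬ 4 ∣ k)
    (hc : D = pg e v ^ k * c) (hzc : ¬ pg e v ∣ c) :
    aV (q4 (em0 e D)) v = 0 ∧ eV (q4 (em0 e D)) v = 0 := by
  have hsp := pg_span e v
  set z := pg e v with hz
  have hzp : Prime z := pg_prime e v
  have ht0 : e z ≠ 0 := by
    rw [Ne, map_eq_zero_iff e e.injective]
    exact hzp.ne_zero
  refine bad_of4 (t := e z) (r := e (-64 * c ^ 3)) (m := 3 * k) ht0 hsp (by omega) ?_ ?_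
  · rw [mem_iff e hsp]
    intro h
    rcases hzp.dvd_or_dvd h with h3 | h3
    · have e5 : (-64 : ZI) = -(2 ^ 6) := by decide
      rw [e5, dvd_neg] at h3
      exact not_dvd_two hPP (hzp.dvd_of_dvd_pow h3)
    · exact hzc (hzp.dvd_of_dvd_pow h3)
  · rw [disc_eq' e, ← map_pow, ← map_mul]
    congr 1
    rw [hc]
    ring

/-- **the `L`-series, general form, exponents prime to four** -/
theorem ls_gen3 {D f : ZI} {X : ZI →* ℂ} (H : HC f X)
    (h1 : ∀ z, PP z → z ∣ D → ∃ (k : ℕ) (c : ZI), ¬ 4 ∣ k ∧ D = z ^ k * c ∧ ¬ z ∣ c)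
    (h2 : ∀ z, PP z → z ∣ D → z ∣ f) (h3 : pi1 ∣ f)
    (h4 : ∀ v : HeightOneSpectrum (𝓞 K), v = plc e pi1_prime →
      aV (q4 (em0 e D)) v = 0 ∧ eV (q4 (em0 e D)) v = 0)
    (h5 : ∀ z, PP z → ¬ z ∣ D → X z = (starRingEnd ℂ) (tc (Y699.q4 z (-D)))) (s : ℂ)
    (hs : 3 / 2 < s.re) :
    LSeriesSummable ((fun n : ℤ => (n : ℂ)) ∘ (q4 (em0 e D)).LFunction) s ∧
      LG X s = (q4 (em0 e D)).LSeries s := by
  have key : ∀ (v : HeightOneSpectrum (𝓞 K)) (s : ℂ),
      HBd (aV (q4 (em0 e D)) v) (eV (q4 (em0 e D)) v) (nm v) ∧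
      (1 - (aV (q4 (em0 e D)) v : ℂ) * (nm v : ℂ) ^ (-s) +
        (eV (q4 (em0 e D)) v : ℂ) * ((nm v : ℂ) ^ (-s)) ^ 2)⁻¹ = g1 X e s v * g2 X e s v := by
    intro v s
    by_cases hb : pg e v = pi1 ∨ pg e v ∣ D
    · have h0 : (aV (q4 (em0 e D)) v = 0 ∧ eV (q4 (em0 e D)) v = 0) ∧ pg e v ∣ f := by
        rcases pg_cases e v with ⟨g1, g2⟩ | ⟨g1, g2⟩
        · have g2' : pg e v = pi1 := g2
          refine ⟨h4 v ?_, by rw [g2']; exact h3⟩
          apply HeightOneSpectrum.ext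
          show v.asIdeal = Ideal.span {e pi1}
          rw [← g2']
          exact pg_span e v
        · have hPP : PP (pg e v) := ⟨(Ip_spec (Pool.Agent.H921R2.TatePole.below v).2 g2).2.1,
            (Ip_spec (Pool.Agent.H921R2.TatePole.below v).2 g2).1⟩
          have hzD : pg e v ∣ D := by
            rcases hb with h | h
            · exfalso
              have := pi1_prim hPP.prm
              rw [h] at this
              exact this dvd_rfl
            · exact h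
          obtain ⟨k, c, k1, k2, k3⟩ := h1 _ hPP hzD
          exact ⟨bad_pow e v hPP k1 k2 k3, h2 _ hPP hzD⟩
      refine ⟨Or.inl h0.1, ?_⟩
      have hX0 : X (pg e v) = 0 := X_zero H (pg_prime e v) h0.2
      rw [h0.1.1, h0.1.2]
      unfold g1 g2
      rw [hX0]
      simp
    · push Not at hb
      have hPP : PP (pg e v) := by
        rcases pg_cases e v with ⟨g1, g2⟩ | ⟨g1, g2⟩
        · exact absurd g2 hb.1
        · exact ⟨(Ip_spec (Pool.Agent.H921R2.TatePole.below v).2 g2).2.1,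
            (Ip_spec (Pool.Agent.H921R2.TatePole.below v).2 g2).1⟩
      obtain ⟨k1, k2, k3, k4⟩ := good_odd e v hPP hb.2
      have hXz := h5 _ hPP hb.2
      set q := Pool.Agent.Y699.q4 (pg e v) (-D) with hq
      constructor
      · refine Or.inr ⟨(starRingEnd ℂ) (tc q) * tc (pg e v), ?_, ?_, ?_⟩
        · rw [k1, map_mul, Complex.conj_conj]
        · rw [k2, map_mul, Complex.conj_conj]
          linear_combination (-(nm v : ℂ)) * k3 - (tc q * (starRingEnd ℂ) (tc q)) * k4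
        · rw [map_mul, Complex.conj_conj]
          linear_combination ((nm v : ℂ)) * k3 + (tc q * (starRingEnd ℂ) (tc q)) * k4
      · unfold g1 g2
        rw [hXz, Complex.conj_conj, tc_star, ← mul_inv, k1, k2]
        congr 1
        have hnm : ((Ideal.absNorm v.asIdeal : ℕ) : ℂ) = (nm v : ℂ) := rfl
        rw [hnm]
        linear_combination (-((nm v : ℂ) ^ (-s)) ^ 2 * (nm v : ℂ)) * k3 -
          (((nm v : ℂ) ^ (-s)) ^ 2 * tc q * (starRingEnd ℂ) (tc q)) * k4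
  obtain ⟨k1, k2⟩ := LSeries_hasProd' (q4 (em0 e D)) (fun v => (key v s).1) hs
  refine ⟨k1, ?_⟩
  have hX0 : X pi1 = 0 := X_zero H pi1_prime h3
  have k3 := (g1_hasProd H hX0 e hs).mul (g2_hasProd H hX0 e hs)
  exact k3.unique (k2.congr_fun fun v => ((key v s).2).symm)

end main

/-- the product of the primes of `t`, a primary divisor of `Δ` -/
theorem prod_t {Δ t : ZI} (hΔ : PS Δ) (ht : prim t) (htΔ : t ∣ Δ) :
    ∏ i : {π : ZI // π ∈ PD Δ}, (if fam Δ i ∣ t then fam Δ i else 1) = t := by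
  have hn := hΔ.ne
  have hPt : PS t := hΔ.of_dvd ht htΔ
  have h1 : ∏ i : {π : ZI // π ∈ PD Δ}, (if fam Δ i ∣ t then fam Δ i else 1) =
      ∏ π ∈ PD Δ, (if π ∣ t then π else 1) :=
    Finset.prod_coe_sort (PD Δ) (fun π => if π ∣ t then π else 1)
  rw [h1, ← Finset.prod_filter]
  have h2 : (PD Δ).filter (fun π => π ∣ t) = PD t := by
    ext π
    rw [Finset.mem_filter, mem_PD hn, mem_PD hPt.ne]
    constructor
    · rintro ⟨⟨h3, _⟩, h4⟩
      exact ⟨h3, h4⟩
    · rintro ⟨h3, h4⟩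
      exact ⟨⟨h3, h4.trans htΔ⟩, h4⟩
  rw [h2]
  exact hPt.prod

/-- `c4` with the exponents `3` at the primes of `t` and `1` at the others -/
theorem c4_et (J : JJ) {Δ t : ZI} (hΔ : PS Δ) (ht : prim t) (htΔ : t ∣ Δ) {z : ZI} (hz : PP z)
    (hzD : ¬ z ∣ Δ) (E : {π : ZI // π ∈ PD Δ} → ℕ) (hE : ∀ i, E i = if fam Δ i ∣ t then 3 else 1) :
    c4 (fam Δ) Finset.univ E z = c4 (fam Δ) Finset.univ on1 z * Y699.q4 z t ^ 2 := by
  have hp := fam_PF hΔ.ne
  have hne : ∀ i, z ≠ fam Δ i := by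
    intro i h
    apply hzD
    rw [h]
    exact ((mem_PD hΔ.ne).1 i.2).2
  have hnd : ∀ i, ¬ fam Δ i ∣ z := fun i h => hne i ((hp.pp i).eq_of_dvd hz h).symm
  have e1 : Y699.q4 z t = ∏ i : {π : ZI // π ∈ PD Δ}, Y699.q4 z (if fam Δ i ∣ t then fam Δ i else 1) := by
    rw [← q4_prod hz, prod_t hΔ ht htΔ]
  unfold c4
  rw [e1, ← Finset.prod_pow, ← Finset.prod_mul_distrib]
  refine Finset.prod_congr rfl fun i _ => ?_
  unfold fe
  rw [if_neg (hnd i), if_neg (hnd i), hE i]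
  by_cases h : fam Δ i ∣ t
  · rw [if_pos h, if_pos h, q4_rec J hz (hp.pp i) (hne i), pow_one]
    have h2 : (((-1 : ZI)) ^ (nrm z / 4 * (nrm (fam Δ i) / 4))) ^ 2 = 1 := by
      rw [← pow_mul, mul_comm _ 2, pow_mul]
      norm_num
    rw [mul_pow, h2]
    ring
  · rw [if_neg h, if_neg h, q4_one hz]
    ring

/-- the exponents of the primes in `u Δ t²` -/
theorem expo {Δ t u : ZI} (hΔ : PS Δ) (ht : prim t) (htΔ : t ∣ Δ) (hu : ∀ z, PP z → ¬ z ∣ u)
    {z : ZI} (hz : PP z) (h : z ∣ u * (Δ * t ^ 2)) :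
    ∃ (k : ℕ) (c : ZI), ¬ 4 ∣ k ∧ u * (Δ * t ^ 2) = z ^ k * c ∧ ¬ z ∣ c := by
  have hPt : PS t := hΔ.of_dvd ht htΔ
  have hzΔ : z ∣ Δ := by
    rcases hz.pr.dvd_or_dvd h with h | h
    · exact absurd h (hu z hz)
    · rcases hz.pr.dvd_or_dvd h with h | h
      · exact h
      · exact (hz.pr.dvd_of_dvd_pow h).trans htΔ
  have hsq : ∀ {a : ZI}, Squarefree a → ∀ b, a = z * b → ¬ z ∣ b := by
    intro a ha b hb hzb
    apply hz.pr.not_isUnit
    apply ha z
    rw [hb]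
    exact mul_dvd_mul_left z hzb
  obtain ⟨c1, hc1⟩ := hzΔ
  have hzc1 := hsq hΔ.sqf c1 hc1
  by_cases hzt : z ∣ t
  · obtain ⟨c2, hc2⟩ := hzt
    have hzc2 := hsq hPt.sqf c2 hc2
    refine ⟨3, u * c1 * c2 ^ 2, by norm_num, by rw [hc1, hc2]; ring, ?_⟩
    intro h3
    rcases hz.pr.dvd_or_dvd h3 with h3 | h3
    · rcases hz.pr.dvd_or_dvd h3 with h3 | h3
      · exact hu z hz h3
      · exact hzc1 h3
    · exact hzc2 (hz.pr.dvd_of_dvd_pow h3)
  · refine ⟨1, u * c1 * t ^ 2, by norm_num, by rw [hc1]; ring, ?_⟩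
    intro h3
    rcases hz.pr.dvd_or_dvd h3 with h3 | h3
    · rcases hz.pr.dvd_or_dvd h3 with h3 | h3
      · exact hu z hz h3
      · exact hzc1 h3
    · exact hzt (hz.pr.dvd_of_dvd_pow h3)

/-- the primes of `u Δ t²` divide `Δ` -/
theorem dvd_del {Δ t u : ZI} (htΔ : t ∣ Δ) (hu : ∀ z, PP z → ¬ z ∣ u) {z : ZI} (hz : PP z)
    (h : z ∣ u * (Δ * t ^ 2)) : z ∣ Δ := by
  rcases hz.pr.dvd_or_dvd h with h | h
  · exact absurd h (hu z hz)
  · rcases hz.pr.dvd_or_dvd h with h | h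
    · exact h
    · exact (hz.pr.dvd_of_dvd_pow h).trans htΔ

end Pool.Agent.D0H24.MQ
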