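import Pool.Agent.D0H43.MQ.StmB
import Pool.Agent.D0H24.MQ.Gen3

/-!
Project MQ (helper43), modules 7 and 8.
-/

set_option autoImplicit false
set_option linter.unusedSectionVars false

open NumberField IsDedekindDomain

namespace Pool.Agent.D0H24.MQ

open scoped Classical
open WeierstrassCurve
open Pool.Agent.D0H69.Q4
open Pool.Agent.Y699 hiding q4 wi
open Pool.Agent.Y715.Z
open H385 (ZI RQ im1 nrm)
open Pool.Agent.H304R3.HK (tc HC LH)
open Pool.Agent.H304R2.EC.A1 (prim prim_mul)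
open Pool.Agent.D0H43.Q4 (S_SUPL cI cO sg wi wo l1 f7 xl)
open Pool.Agent.D0H43.MQ (et S_LS1T S_LSOT)

/-- **the `L`-series, `σ` odd** -/
theorem t_LS1T : S_LS1T := by
  intro σ hσ K _ _ e Δ t hΔ ht htΔ X H hX s hs
  have hu : ∀ z, PP z → ¬ z ∣ (im1 ^ σ : ZI) := fun z hz h =>
    hz.pr.not_isUnit (isUnit_of_dvd_unit h (isUnit_im1_pow σ))
  have hprt : prim (Δ * t ^ 2) := prim_mul hΔ.prm (by rw [pow_two]; exact prim_mul ht ht)
  refine ls_gen3 e (D := im1 ^ σ * (Δ * t ^ 2)) H ?_ ?_ ?_ ?_ ?_ s hs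
  · intro z hz h
    exact expo hΔ ht htΔ hu hz h
  · intro z hz h
    exact (dvd_del htΔ hu hz h).mul_left _
  · exact (pi1_two.trans ⟨4, by norm_num⟩).mul_right _
  · have h3 := odd_twist hσ hprt
    exact bad_two e h3.1 h3.2
  · intro z hz hzD
    have hzΔ : ¬ z ∣ Δ := fun h => hzD ((h.mul_right _).mul_left _)
    rw [hX z hz.prm]
    congr 2
    have e1 : -(im1 ^ σ * (Δ * t ^ 2)) = (im1 ^ (σ + 2) * Δ) * t * t := by
      have h2 : (im1 : ZI) ^ 2 = -1 := by rw [pow_two, im1_sq']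
      rw [pow_add, h2]
      ring
    have hS' : sg σ Δ = σ + 2 + 2 * ∑ i : {π : ZI // π ∈ PD Δ}, wq (fam Δ i) := rfl
    rw [e1, q4_mul hz, q4_mul hz, q4_twist (JJ_of e) hΔ (σ + 2) hz hzΔ,
      c4_et (JJ_of e) hΔ ht htΔ hz hzΔ (et Δ t) (fun _ => rfl), hS']
    unfold wi
    ring

/-- **the `L`-series, `b = 1`** -/
theorem t_LSOT : S_SUPL → S_LSOT := by
  intro hS σ K _ _ e Δ t hΔ ht htΔ X H hX s hs
  have hu : ∀ z, PP z → ¬ z ∣ (im1 ^ σ * l1 : ZI) := by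
    intro z hz h
    rcases hz.pr.dvd_or_dvd h with h | h
    · exact hz.pr.not_isUnit (isUnit_of_dvd_unit h (isUnit_im1_pow σ))
    · exact pp_l1 hz h
  have hprt : prim (Δ * t ^ 2) := prim_mul hΔ.prm (by rw [pow_two]; exact prim_mul ht ht)
  refine ls_gen3 e (D := im1 ^ σ * l1 * (Δ * t ^ 2)) H ?_ ?_ ?_ ?_ ?_ s hs
  · intro z hz h
    exact expo hΔ ht htΔ hu hz h
  · intro z hz h
    exact (dvd_del htΔ hu hz h).mul_left _
  · exact Dvd.dvd.mul_right (⟨8, by decide⟩ : pi1 ∣ f7) Δ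
  · refine bad_two_of e (b := 1) (c := im1 ^ σ * (Δ * t ^ 2)) (by norm_num) ?_ ?_
    · have : l1 = pi1 := rfl
      rw [this]
      ring
    · intro h
      rcases pi1_prime.dvd_or_dvd h with h | h
      · exact pi1_prime.not_isUnit (isUnit_of_dvd_unit h (isUnit_im1_pow σ))
      · exact pi1_prim hprt h
  · intro z hz hzD
    have hzΔ : ¬ z ∣ Δ := fun h => hzD ((h.mul_right _).mul_left _)
    rw [hX z hz.prm]
    congr 2
    have e1 : -(im1 ^ σ * l1 * (Δ * t ^ 2)) = l1 * (im1 ^ (σ + 2) * Δ) * t * t := by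
      have h2 : (im1 : ZI) ^ 2 = -1 := by rw [pow_two, im1_sq']
      rw [pow_add, h2]
      ring
    have hS' : sg σ Δ = σ + 2 + 2 * ∑ i : {π : ZI // π ∈ PD Δ}, wq (fam Δ i) := rfl
    rw [e1, q4_mul hz, q4_mul hz, q4_mul hz, q4_twist (JJ_of e) hΔ (σ + 2) hz hzΔ, hS z hz,
      c4_et (JJ_of e) hΔ ht htΔ hz hzΔ (et Δ t) (fun _ => rfl), hS']
    unfold wo
    rw [pow_add]
    ring

end Pool.Agent.D0H24.MQ
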